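import Pool.Agent.helper66.SL.SpecC

/-!
# Simplicial oriented matroids (MP_ad2b66_co): row CPR (parity)
-/

set_option autoImplicit false

namespace Pool.Agent.helper66.SL

open Pool.Agent.helper52.FC

variable {E : Type}

private theorem CPR_le_fl {p S : E → SignType} {k : E} (h : p k = 0) :
    Le p (fl S k) ↔ Le p S := by
  constructor
  · intro H g
    by_cases hg : g = k
    · subst hg
      exact Or.inl h
    · have h1 := H g
      rwa [fl_ne S hg] at h1
  · intro H g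
    by_cases hg : g = k
    · subst hg
      exact Or.inl h
    · rw [fl_ne S hg]
      exact H g

private theorem CPR_tri (hTRI : TRI) [Finite E] {L : Set (E → SignType)} (hL : R3 L)
    {S : E → SignType} (hS : IsTope L S) {e : E} (he : Wall L S e) :
    ∃ (j k : E) (q pk pj : E → SignType), e ≠ j ∧ e ≠ k ∧ j ≠ k ∧
      (∀ g, Wall L S g ↔ g = e ∨ g = j ∨ g = k) ∧
      Cork L q 2 ∧ Cork L pk 2 ∧ Cork L pj 2 ∧ Le q S ∧ Le pk S ∧ Le pj S ∧
      q e ≠ 0 ∧ q j = 0 ∧ q k = 0 ∧ pk e = 0 ∧ pk j ≠ 0 ∧ pk k = 0 ∧ pj e = 0 ∧ pj j = 0 ∧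
      pj k ≠ 0 ∧ ∀ s, Cork L s 2 → Le s S → s = q ∨ s = pk ∨ s = pj := by
  obtain ⟨i, j, k, p, q, r, hij, hik, hjk, hw, cp, cq, cr, lp, lq, lr, pi, pj, pk, qi, qj, qk, ri,
    rj, rk, hu⟩ := hTRI E L hL S hS
  rcases (hw e).1 he with h | h | h
  · subst h
    exact ⟨j, k, p, q, r, hij, hik, hjk, hw, cp, cq, cr, lp, lq, lr, pi, pj, pk, qi, qj, qk, ri,
      rj, rk, hu⟩
  · subst h
    refine ⟨i, k, q, p, r, hij.symm, hjk, hik, fun g => ?_, cq, cp, cr, lq, lp, lr, qj, qi, qk, pj,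
      pi, pk, rj, ri, rk, fun s h1 h2 => ?_⟩
    · rw [hw g]
      tauto
    · have := hu s h1 h2
      tauto
  · subst h
    refine ⟨i, j, r, p, q, hik.symm, hjk.symm, hij, fun g => ?_, cr, cp, cq, lr, lp, lq, rk, ri, rj,
      pk, pi, pj, qk, qi, qj, fun s h1 h2 => ?_⟩
    · rw [hw g]
      tauto
    · have := hu s h1 h2
      tauto

private theorem CPR_third {L : Set (E → SignType)} {p : E → SignType}
    (h : Vx L 3 p) {a b : E} (hab : a ≠ b) (ha : p a = 0) (hb : p b = 0) :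
    ∃ c, c ≠ a ∧ c ≠ b ∧ p c = 0 ∧ ∀ g, p g = 0 → g = a ∨ g = b ∨ g = c := by
  obtain ⟨x, y, z, hxy, hxz, hyz, hs⟩ := Set.ncard_eq_three.1 h.2
  have hm : ∀ g, p g = 0 ↔ g = x ∨ g = y ∨ g = z := by
    intro g
    have h1 : g ∈ {g | p g = 0} ↔ g ∈ ({x, y, z} : Set E) := by rw [hs]
    simpa using h1
  have ha' := (hm a).1 ha
  have hb' := (hm b).1 hb
  rcases ha' with rfl | rfl | rfl <;> rcases hb' with rfl | rfl | rfl
  · exact absurd rfl hab
  · exact ⟨z, hxz.symm, hyz.symm, (hm z).2 (by tauto), fun g hg => by have := (hm g).1 hg; tauto⟩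
  · exact ⟨y, hxy.symm, hyz, (hm y).2 (by tauto), fun g hg => by have := (hm g).1 hg; tauto⟩
  · exact ⟨z, hyz.symm, hxz.symm, (hm z).2 (by tauto), fun g hg => by have := (hm g).1 hg; tauto⟩
  · exact absurd rfl hab
  · exact ⟨x, hxy, hxz, (hm x).2 (by tauto), fun g hg => by have := (hm g).1 hg; tauto⟩
  · exact ⟨y, hyz, hxy.symm, (hm y).2 (by tauto), fun g hg => by have := (hm g).1 hg; tauto⟩
  · exact ⟨x, hxz, hxy, (hm x).2 (by tauto), fun g hg => by have := (hm g).1 hg; tauto⟩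
  · exact absurd rfl hab

private theorem CPR_lab (hPAT : PAT) (hPUN : PUN) [Finite E] {L : Set (E → SignType)} (hL : R3 L)
    {S : E → SignType} (hS : IsTope L S) {e k : E} (he : Wall L S e) (hk : Wall L S k)
    (hek : e ≠ k) {q p : E → SignType} (hp : Vx L 3 p) (hpS : Le p S) (hpe : p e = 0)
    (hpk : p k = 0) (hq : Cork L q 2) (hqe : q e ≠ 0) (hqk : q k = 0) {y : E} (hyk : y ≠ k)
    (hqy : q y = 0) (hy : Wall L (fl S k) y) :
    ¬ Wall L (fl S k) e ∧ ∀ x, (Wall L (fl S k) x ∧ p x ≠ 0) ↔ x = y := by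
  obtain ⟨c, hck, hce, hpc, hz⟩ := CPR_third hp hek.symm hpk hpe
  obtain ⟨h1, h2, h3⟩ := hPAT E L hL.good p hp.1 k e c hek.symm hck hce hpk hpe hpc hz S hS hpS hk he
  refine ⟨h3, ?_⟩
  have hpy : p y ≠ 0 := by
    intro hpy
    rcases hPUN E L hL p q hp.1 hq y k hyk hpy hpk hqy hqk with h | h
    · apply hqe
      rw [h, hpe]
    · apply hqe
      rw [h]
      simp [hpe]
  have hM : IsTope L (fl S k) := hk
  have hkk : Wall L (fl S k) k := by
    unfold Wall
    rw [fl_fl]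
    exact hS
  have h3c := hL.rk.2 (fl S k) hM (fun g => Or.inl rfl)
  have hcy : c ≠ y := by
    rintro rfl
    exact hpy hpc
  have hsub : ({k, c, y} : Set E) ⊆ {g | Wall L (fl S k) g ∧ (fun _ : E => (0 : SignType)) g = 0} := by
    intro g hg
    rcases hg with rfl | rfl | hg
    · exact ⟨hkk, rfl⟩
    · exact ⟨h2, rfl⟩
    · rw [Set.mem_singleton_iff] at hg
      subst hg
      exact ⟨hy, rfl⟩
  have hcard : ({k, c, y} : Set E).ncard = 3 :=
    Set.ncard_eq_three.2 ⟨k, c, y, hck.symm, hyk.symm, hcy, rfl⟩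
  have heq := Set.eq_of_subset_of_ncard_le hsub (by rw [h3c, hcard]) (Set.toFinite _)
  intro x
  constructor
  · rintro ⟨hx, hpx⟩
    have hmem : x ∈ ({k, c, y} : Set E) := by
      rw [heq]
      exact ⟨hx, rfl⟩
    rcases hmem with rfl | rfl | hg
    · exact absurd hpk hpx
    · exact absurd hpc hpx
    · exact hg
  · rintro rfl
    exact ⟨hy, hpy⟩

private def CPR_P (L : Set (E → SignType)) (e x : E) (M p : E → SignType) (k : E) : Prop :=
  (IsTope L M ∧ M e = 1 ∧ ¬ Wall L M e ∧ Cork L p 2 ∧ Le p M ∧ p e = 0 ∧ Wall L M x ∧ p x ≠ 0) ∧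
    Wall L M k ∧ p k = 0

private theorem CPR_back (hPAT : PAT) [Finite E] {L : Set (E → SignType)} (hL : R3 L) {e : E}
    (hv : ∀ p, Cork L p 2 → p e = 0 → Vx L 3 p) {x : E} {S p : E → SignType} {k : E}
    (h : CPR_P L e x (fl S k) p k) : IsTope L S ∧ Wall L S k ∧ k ≠ e ∧ S e = 1 ∧ Wall L S e ∧
      Le p S := by
  obtain ⟨⟨hM, hMe, hMw, hp, hpM, hpe, hMx, hpx⟩, hMk, hpk⟩ := h
  have hke : k ≠ e := by
    rintro rfl
    exact hMw hMk
  have hS : IsTope L S := by
    have h1 : IsTope L (fl (fl S k) k) := hMk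
    rwa [fl_fl] at h1
  have hSe : S e = 1 := by
    rwa [fl_ne S hke.symm] at hMe
  have hpS : Le p S := (CPR_le_fl hpk).1 hpM
  have h2 := hp.2 (fl S k) hM hpM
  have hkm : k ∈ {g | Wall L (fl S k) g ∧ p g = 0} := ⟨hMk, hpk⟩
  obtain ⟨c, hck, hMc, hpc⟩ : ∃ c, c ≠ k ∧ Wall L (fl S k) c ∧ p c = 0 := by
    obtain ⟨a, b, hab, hs⟩ := Set.ncard_eq_two.1 h2
    have ha : a ∈ {g | Wall L (fl S k) g ∧ p g = 0} := by
      rw [hs]
      simp
    have hb : b ∈ {g | Wall L (fl S k) g ∧ p g = 0} := by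
      rw [hs]
      simp
    by_cases h3 : a = k
    · subst h3
      exact ⟨b, hab.symm, hb.1, hb.2⟩
    · exact ⟨a, h3, ha.1, ha.2⟩
  have hce : e ≠ c := by
    rintro rfl
    exact hMw hMc
  obtain ⟨d, hdk, hdc, hpd, hz⟩ := CPR_third (hv p hp hpe) hck.symm hpk hpc
  have hde : e = d := by
    rcases hz e hpe with h3 | h3 | h3
    · exact absurd h3.symm hke
    · exact absurd h3 hce
    · exact h3
  subst hde
  obtain ⟨-, h4, -⟩ := hPAT E L hL.good p hp k c e hck.symm hdk hdc hpk hpc hpe hz (fl S k) hM hpM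
    hMk hMc
  rw [fl_fl] at h4
  exact ⟨hS, hM, hke, hSe, h4, hpS⟩

open Classical in
private theorem CPR_fix (hPAT : PAT) (hSZZ : SZZ) (hTRI : TRI) (hPUN : PUN) [Fintype E]
    {L : Set (E → SignType)} (hL : R3 L) {e : E} (hv : ∀ p, Cork L p 2 → p e = 0 → Vx L 3 p)
    {x : E} (hx : x ≠ e) (S : E → SignType) :
    (∑ k : E, ∑ p : E → SignType, (if CPR_P L e x (fl S k) p k then 1 else 0 : ZMod 2)) =
      if S ∈ Ds L e ∧ Wall L S x then 1 else 0 := by
  by_cases hS : IsTope L S ∧ Wall L S e ∧ S e = 1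
  swap
  · have h1 : ¬ (S ∈ Ds L e ∧ Wall L S x) := by
      rintro ⟨⟨h1, h2, h3, -⟩, -⟩
      exact hS ⟨h1, h2, h3⟩
    rw [if_neg h1]
    refine Finset.sum_eq_zero fun k _ => Finset.sum_eq_zero fun p _ => if_neg fun h => hS ?_
    obtain ⟨h2, -, -, h3, h4, -⟩ := CPR_back hPAT hL hv h
    exact ⟨h2, h4, h3⟩
  obtain ⟨hS, he, hSe⟩ := hS
  obtain ⟨j, k, q, pk, pj, hej, hek, hjk, hw, cq, cpk, cpj, lq, lpk, lpj, qe, qj, qk, pke, pkj, pkk,
    pje, pjj, pjk, hu⟩ := CPR_tri hTRI hL hS he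
  have hwj : Wall L S j := (hw j).2 (by tauto)
  have hwk : Wall L S k := (hw k).2 (by tauto)
  have hDs : S ∈ Ds L e ↔ Vx L 2 q := by
    constructor
    · rintro ⟨-, -, -, p, hp, hpS, hpe⟩
      rcases hu p hp.1 hpS with h | h | h
      · rwa [h] at hp
      · exact absurd (h ▸ pke) hpe
      · exact absurd (h ▸ pje) hpe
    · intro h
      exact ⟨hS, he, hSe, q, h, lq, qe⟩
  have key : ∃ yk yj, yk ≠ k ∧ q yk = 0 ∧ Wall L (fl S k) yk ∧ yj ≠ j ∧ q yj = 0 ∧
      Wall L (fl S j) yj ∧ ((if x = yk then 1 else 0 : ZMod 2) + (if x = yj then 1 else 0) =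
        if S ∈ Ds L e ∧ Wall L S x then 1 else 0) := by
    rcases (hSZZ E L hL.good hL.cl q cq).1 with h2 | h3
    · have hd := (hSZZ E L hL.good hL.cl q cq).2 h2
      refine ⟨j, k, hjk, qj, hd (fl S k) hwk ((CPR_le_fl qk).2 lq) j qj, hjk.symm, qk,
        hd (fl S j) hwj ((CPR_le_fl qj).2 lq) k qk, ?_⟩
      have h4 : S ∈ Ds L e := hDs.2 ⟨cq, h2⟩
      by_cases hxj : x = j
      · subst hxj
        rw [if_pos rfl, if_neg hjk, if_pos ⟨h4, hwj⟩, add_zero]
      · by_cases hxk : x = k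
        · subst hxk
          rw [if_neg hxj, if_pos rfl, if_pos ⟨h4, hwk⟩, zero_add]
        · rw [if_neg hxj, if_neg hxk, if_neg, add_zero]
          rintro ⟨-, h5⟩
          rcases (hw x).1 h5 with h6 | h6 | h6
          · exact hx h6
          · exact hxj h6
          · exact hxk h6
    · obtain ⟨t, htj, htk, qt, hz⟩ := CPR_third ⟨cq, h3⟩ hjk qj qk
      obtain ⟨-, h4, -⟩ := hPAT E L hL.good q cq j k t hjk htj htk qj qk qt hz S hS lq hwj hwk
      obtain ⟨-, h5, -⟩ := hPAT E L hL.good q cq k j t hjk.symm htk htj qk qj qt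
        (fun g hg => by have := hz g hg; tauto) S hS lq hwk hwj
      refine ⟨t, t, htk, qt, h5, htj, qt, h4, ?_⟩
      have h6 : ¬ (S ∈ Ds L e ∧ Wall L S x) := by
        rintro ⟨h7, -⟩
        have h8 := (hDs.1 h7).2
        omega
      rw [if_neg h6]
      exact CharTwo.add_self_eq_zero _
  obtain ⟨yk, yj, hyk, qyk, wyk, hyj, qyj, wyj, hsum⟩ := key
  obtain ⟨lk1, lk2⟩ := CPR_lab hPAT hPUN hL hS he hwk hek (hv pk cpk pke) lpk pke pkk cq qe qk hyk qyk
    wyk
  obtain ⟨lj1, lj2⟩ := CPR_lab hPAT hPUN hL hS he hwj hej (hv pj cpj pje) lpj pje pjj cq qe qj hyj qyj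
    wyj
  have hiff : ∀ (g : E) (p : E → SignType), (if CPR_P L e x (fl S g) p g then 1 else 0 : ZMod 2) =
      (if p = pk then (if g = k then (if x = yk then 1 else 0) else 0) else 0) +
      (if p = pj then (if g = j then (if x = yj then 1 else 0) else 0) else 0) := by
    intro g p
    by_cases h : CPR_P L e x (fl S g) p g
    · rw [if_pos h]
      obtain ⟨-, h2, h3, -, -, h4⟩ := CPR_back hPAT hL hv h
      obtain ⟨⟨-, -, -, h5, -, h6, h7, h8⟩, -, h9⟩ := h
      rcases (hw g).1 h2 with hg | hg | hg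
      · exact absurd hg h3
      · subst hg
        have hp : p = pj := by
          rcases hu p h5 h4 with hp | hp | hp
          · exact absurd (hp ▸ h6) qe
          · exact absurd (hp ▸ h9) pkj
          · exact hp
        subst hp
        have hxy := (lj2 x).1 ⟨h7, h8⟩
        rw [if_neg (fun hc : g = k => hjk hc), if_pos rfl, if_pos rfl, if_pos hxy]
        simp
      · subst hg
        have hp : p = pk := by
          rcases hu p h5 h4 with hp | hp | hp
          · exact absurd (hp ▸ h6) qe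
          · exact hp
          · exact absurd (hp ▸ h9) pjk
        subst hp
        have hxy := (lk2 x).1 ⟨h7, h8⟩
        rw [if_neg (fun hc : g = j => hjk hc.symm), if_pos rfl, if_pos rfl, if_pos hxy]
        simp
    · rw [if_neg h]
      have ha : ¬ (p = pk ∧ g = k ∧ x = yk) := by
        rintro ⟨rfl, rfl, rfl⟩
        obtain ⟨h7, h8⟩ := (lk2 x).2 rfl
        refine h ⟨⟨hwk, ?_, lk1, cpk, (CPR_le_fl pkk).2 lpk, pke, h7, h8⟩, ?_, pkk⟩
        · rw [fl_ne S hek]
          exact hSe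
        · unfold Wall
          rw [fl_fl]
          exact hS
      have hb : ¬ (p = pj ∧ g = j ∧ x = yj) := by
        rintro ⟨rfl, rfl, rfl⟩
        obtain ⟨h7, h8⟩ := (lj2 x).2 rfl
        refine h ⟨⟨hwj, ?_, lj1, cpj, (CPR_le_fl pjj).2 lpj, pje, h7, h8⟩, ?_, pjj⟩
        · rw [fl_ne S hej]
          exact hSe
        · unfold Wall
          rw [fl_fl]
          exact hS
      have ha' : (if p = pk then (if g = k then (if x = yk then 1 else 0) else 0) else 0 : ZMod 2) =
          0 := by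
        by_cases h1 : p = pk
        · by_cases h2 : g = k
          · by_cases h3 : x = yk
            · exact absurd ⟨h1, h2, h3⟩ ha
            · rw [if_pos h1, if_pos h2, if_neg h3]
          · rw [if_pos h1, if_neg h2]
        · rw [if_neg h1]
      have hb' : (if p = pj then (if g = j then (if x = yj then 1 else 0) else 0) else 0 : ZMod 2) =
          0 := by
        by_cases h1 : p = pj
        · by_cases h2 : g = j
          · by_cases h3 : x = yj
            · exact absurd ⟨h1, h2, h3⟩ hb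
            · rw [if_pos h1, if_pos h2, if_neg h3]
          · rw [if_pos h1, if_neg h2]
        · rw [if_neg h1]
      rw [ha', hb', add_zero]
  rw [← hsum]
  simp_rw [hiff, Finset.sum_add_distrib, Finset.sum_ite_eq', Finset.mem_univ, if_true,
    Finset.sum_ite_eq', Finset.mem_univ, if_true]

theorem CPR_proof (hPAT : PAT) (hSZZ : SZZ) (hTRI : TRI) (hPUN : PUN) (hSTC : STC) : CPR := by
  classical
  intro E _ L hL e hv x hx
  have _ := hSTC
  have := Fintype.ofFinite E
  have hzero : ∀ M p : E → SignType, (∑ k : E, (if CPR_P L e x M p k then 1 else 0 : ZMod 2)) = 0 := by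
    intro M p
    by_cases h : IsTope L M ∧ M e = 1 ∧ ¬ Wall L M e ∧ Cork L p 2 ∧ Le p M ∧ p e = 0 ∧ Wall L M x ∧
      p x ≠ 0
    · have h1 : ∀ k, CPR_P L e x M p k ↔ (Wall L M k ∧ p k = 0) := fun k =>
        ⟨fun h2 => h2.2, fun h2 => ⟨h, h2⟩⟩
      simp_rw [h1]
      rw [Finset.sum_boole]
      have h2 := h.2.2.2.1.2 M h.1 h.2.2.2.2.1
      rw [Set.ncard_eq_toFinset_card'] at h2
      have h3 : (Finset.univ.filter fun k => Wall L M k ∧ p k = 0) =
          {k | Wall L M k ∧ p k = 0}.toFinset := by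
        ext k
        simp
      rw [h3, h2]
      rfl
    · exact Finset.sum_eq_zero fun k _ => if_neg fun h2 => h h2.1
  have hsum : (∑ S : E → SignType, (if S ∈ Ds L e ∧ Wall L S x then 1 else 0 : ZMod 2)) = 0 := by
    have h1 : (∑ S : E → SignType, (if S ∈ Ds L e ∧ Wall L S x then 1 else 0 : ZMod 2)) =
        ∑ S : E → SignType, ∑ k : E, ∑ p : E → SignType,
          (if CPR_P L e x (fl S k) p k then 1 else 0 : ZMod 2) :=
      Finset.sum_congr rfl fun S _ => (CPR_fix hPAT hSZZ hTRI hPUN hL hv hx S).symm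
    rw [h1, Finset.sum_comm]
    have h2 : ∀ k : E, (∑ S : E → SignType, ∑ p : E → SignType,
        (if CPR_P L e x (fl S k) p k then 1 else 0 : ZMod 2)) =
        ∑ M : E → SignType, ∑ p : E → SignType, (if CPR_P L e x M p k then 1 else 0 : ZMod 2) := by
      intro k
      exact Equiv.sum_comp (Function.Involutive.toPerm (fun S : E → SignType => fl S k)
        (fun S => fl_fl S k)) (fun M => ∑ p : E → SignType,
          (if CPR_P L e x M p k then 1 else 0 : ZMod 2))
    simp_rw [h2]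
    rw [Finset.sum_comm]
    refine Finset.sum_eq_zero fun M _ => ?_
    rw [Finset.sum_comm]
    exact Finset.sum_eq_zero fun p _ => hzero M p
  rw [Finset.sum_boole] at hsum
  rw [Set.ncard_eq_toFinset_card', even_iff_two_dvd]
  have h3 : {S | S ∈ Ds L e ∧ Wall L S x}.toFinset =
      Finset.univ.filter fun S : E → SignType => S ∈ Ds L e ∧ Wall L S x := by
    ext S
    simp
  rw [h3]
  exact (ZMod.natCast_eq_zero_iff _ _).1 hsum

end Pool.Agent.helper66.SL
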